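import Mathlib
import Pool.Agent.H235Z.PermDefs
import Pool.Agent.H235Z.Boxes

namespace Pool.Agent.Results.MP_dfd561_co.AllDims

open Pool.Agent.H235Z

/-- For every `d` and every power of two `n = 2 ^ k` there is a `d`-dimensional permutation of
order `n` all of whose empty boxes have volume at most `16 (d+1) 4^(d+1) n^2`. -/
theorem result (d k : ℕ) : ∃ A : (Fin (d + 1) → Fin (2 ^ k)) → Bool, IsPerm A ∧
    ∀ T : Fin (d + 1) → Finset (Fin (2 ^ k)), IsEmptyBox A T →
      ∏ i, (T i).card ≤ (16 * (d + 1) * 4 ^ (d + 1)) * (2 ^ k) ^ 2 :=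
  box_bound d k

end Pool.Agent.Results.MP_dfd561_co.AllDims
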